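import Pool.Agent.CramNC.Main

/-!
# Cram on general boards is at least as hard as evaluating Boolean formulas

For every Boolean formula `φ` in `n` variables we construct a labelled board `board φ`: a finite set
of cells of the square grid, each with one label (always present, or present iff `x i = b`).  It
lies in a square of side `107 * size φ`, its adjacency graph is a forest, and for every input `x`
the player to move wins Cram (normal play) on the cells selected by `x` iff `φ x` is true.
-/

namespace Pool.Agent.Results.MP_ac89f4_lc.FormulaHard

open Pool.Agent.CramNC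

theorem result (n : ℕ) (φ : Formula n) :
    (∀ p ∈ board φ, ∀ q ∈ board φ, p.1 = q.1 → p = q) ∧
    (∀ p ∈ board φ, 0 ≤ p.1.1 ∧ p.1.1 ≤ 107 * φ.size ∧ 0 ≤ p.1.2 ∧ p.1.2 ≤ 107 * φ.size) ∧
    IsForest ((board φ).image Prod.fst) ∧
    ∀ x : Fin n → Bool, FirstWins (sel x (board φ)) ↔ φ.eval x = true :=
  ⟨board_unique φ, board_box φ, board_forest φ, board_outcome φ⟩

end Pool.Agent.Results.MP_ac89f4_lc.FormulaHard
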